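import Pool.Agent.R482.ST.SlowC

set_option autoImplicit false

/-!
# Two general tools

`slow_par`: a family of sets of integers with a saving `log ^ U X` for the member number `U`; near powers of almost every
number the members with a suitable `U` are avoided.

`diag`: one set thinner than all powers of the logarithm which contains the member number `st n` at `n`, `st → ∞` slowly.
-/

namespace Pool.Agent.Zk38.Cub

open Finset Filter Topology MeasureTheory
open Pool.Agent.R482.ST (slow_int)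

theorem slow_par {I : Type} [Countable I] (P : I → ℕ → ℤ → Prop)
    (hP : ∀ i, ∀ U : ℕ, ∃ X₀ : ℕ, ∀ X : ℕ, X₀ ≤ X →
      ({d : ℤ | d.natAbs ≤ X ∧ P i U d}.ncard : ℝ) ≤ X / Real.log X ^ U)
    {v : ℕ → ℝ} (hv : ∀ n, 1 ≤ v n) {t : ℝ} (ht : Summable fun n => (v n) ^ (-t)) :
    ∃ N : Set ℝ, volume N = 0 ∧ ∀ x : ℝ, 1 < x → x ∉ N → ∀ i, ∀ A : ℕ, ∃ U n₀ : ℕ, ∀ n : ℕ, n₀ ≤ n →
      ∀ d : ℤ, |(|d| : ℝ) - x ^ (v n)| ≤ (v n) ^ A → ¬ P i U d := by
  have hv0 : ∀ n, 0 < v n := fun n => lt_of_lt_of_le one_pos (hv n)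
  have hvinf : Tendsto v atTop atTop := by
    have ht' : Summable fun n => (v n) ^ (-(|t| + 1)) := by
      refine Summable.of_nonneg_of_le (fun n => Real.rpow_nonneg (hv0 n).le _) (fun n => ?_) ht
      exact Real.rpow_le_rpow_of_exponent_le (hv n) (by linarith [le_abs_self t])
    have h0 := ht'.tendsto_atTop_zero
    have hp : 0 < |t| + 1 := by positivity
    rw [tendsto_atTop_atTop]
    intro b
    have hb : 0 < (max b 1) ^ (-(|t| + 1)) := Real.rpow_pos_of_pos (lt_of_lt_of_le one_pos (le_max_right _ _)) _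
    obtain ⟨n0, hn0⟩ := eventually_atTop.1 (h0.eventually (gt_mem_nhds hb))
    refine ⟨n0, fun n hn => ?_⟩
    have h1 := hn0 n hn
    by_contra hcon
    push Not at hcon
    have h2 : v n ≤ max b 1 := hcon.le.trans (le_max_left _ _)
    exact absurd h1 (not_lt.2 (Real.rpow_le_rpow_of_nonpos (hv0 n) h2 (by linarith)))
  have hone : ∀ p : I × ℕ, ∃ (N : Set ℝ) (U : ℕ), volume N = 0 ∧ ∀ x : ℝ, 1 < x → x ∉ N → ∃ n₀ : ℕ, ∀ n : ℕ, n₀ ≤ n →
      ∀ d : ℤ, |(|d| : ℝ) - x ^ (v n)| ≤ (v n) ^ p.2 → ¬ P p.1 U d := by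
    rintro ⟨i, A⟩
    obtain ⟨U, hU⟩ := exists_nat_ge (|t| + A + 1)
    obtain ⟨X₀, hX⟩ := hP i U
    have hU0 : (0 : ℝ) < U := lt_of_lt_of_le (by positivity) hU
    obtain ⟨N, h1, h2⟩ := slow_int (P i U) (δ := U) (C := 1) hU0 X₀ (fun X h => by
        refine (hX X h).trans (le_of_eq ?_)
        rw [Real.rpow_neg (Real.log_natCast_nonneg X), Real.rpow_natCast]
        ring) hv (L := fun n => (v n) ^ A)
      (fun n => pow_nonneg (hv0 n).le _) (by
        intro x hx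
        have h1 := (isLittleO_rpow_exp_pos_mul_atTop (A : ℝ) (Real.log_pos hx)).def (show (0 : ℝ) < 1 / 2 by norm_num)
        filter_upwards [hvinf.eventually h1] with n hn
        rw [Real.norm_of_nonneg (Real.rpow_nonneg (hv0 n).le _), Real.norm_of_nonneg (Real.exp_pos _).le,
          Real.rpow_natCast] at hn
        rw [Real.rpow_def_of_pos (by linarith)]
        linarith) hvinf (by
        refine Summable.of_nonneg_of_le (fun n => mul_nonneg (pow_nonneg (hv0 n).le _) (Real.rpow_nonneg (hv0 n).le _))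
          (fun n => ?_) ht
        rw [← Real.rpow_natCast, ← Real.rpow_add (hv0 n)]
        apply Real.rpow_le_rpow_of_exponent_le (hv n)
        linarith [le_abs_self t])
    exact ⟨N, U, h1, h2⟩
  choose N U hN1 hN2 using hone
  refine ⟨⋃ p, N p, measure_iUnion_null hN1, fun x hx hxN i A => ?_⟩
  exact ⟨U (i, A), hN2 (i, A) x hx fun h => hxN (Set.mem_iUnion.2 ⟨(i, A), h⟩)⟩

/-- a slowly growing function bounded by the thresholds `Y` -/
lemma exists_slow (Y : ℕ → ℕ) : ∃ st : ℕ → ℕ, Monotone st ∧ Tendsto st atTop atTop ∧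
    ∀ n j, 1 ≤ j → j ≤ st n → Y j ≤ n := by
  classical
  -- monotone thresholds
  set Z : ℕ → ℕ := fun j => ∑ i ∈ range (j + 1), (Y i + 1) with hZ
  have hZm : StrictMono Z := by
    apply strictMono_nat_of_lt_succ
    intro j
    simp only [hZ]
    rw [sum_range_succ _ (j + 1)]
    omega
  have hYZ : ∀ j, Y j ≤ Z j := by
    intro j
    simp only [hZ]
    rw [sum_range_succ]
    omega
  set st : ℕ → ℕ := fun n => Nat.findGreatest (fun j => Z j ≤ n) n with hst
  have h1 : ∀ n j, Z j ≤ n → j ≤ st n := fun n j h => Nat.le_findGreatest ((hZm.id_le j).trans h) h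
  refine ⟨st, fun m n hmn => ?_, ?_, fun n j hj1 hj => ?_⟩
  · rcases Nat.eq_zero_or_pos (st m) with h | h
    · rw [h]; exact Nat.zero_le _
    · apply h1
      have : Z (st m) ≤ m := Nat.findGreatest_of_ne_zero (m := st m) rfl (by omega)
      omega
  · rw [tendsto_atTop_atTop]
    exact fun b => ⟨Z b, fun n hn => h1 n b hn⟩
  · have : Z (st n) ≤ n := Nat.findGreatest_of_ne_zero (m := st n) rfl (by omega)
    exact (hYZ j).trans ((hZm.monotone hj).trans this)

lemma geo (a s : ℕ) : ∑ j ∈ Icc (a + 1) s, (1 / 4 : ℝ) ^ (j - a) ≤ 1 - (1 / 4) ^ (s - a) := by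
  induction s with
  | zero => simp
  | succ s ih =>
    rcases Nat.lt_or_ge s a with h | h
    · rw [Icc_eq_empty (by omega), sum_empty, Nat.sub_eq_zero_of_le (by omega)]
      simp
    · rw [Finset.sum_Icc_succ_top (by omega)]
      have e : s + 1 - a = (s - a) + 1 := by omega
      rw [e, pow_succ]
      have : (0 : ℝ) ≤ (1 / 4) ^ (s - a) := by positivity
      linarith

open Classical in
/-- the diagonal set -/
theorem diag (P : ℕ → Set ℕ) (hP : ∀ j : ℕ, ∃ X₀ : ℕ, ∀ X : ℕ, X₀ ≤ X →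
      (((Icc 1 X).filter (fun n => n ∈ P j)).card : ℝ) ≤ X / Real.log X ^ j) (Y : ℕ → ℕ) :
    ∃ st : ℕ → ℕ, Tendsto st atTop atTop ∧ (∀ n j, 1 ≤ j → j ≤ st n → Y j ≤ n) ∧
      ∀ U : ℕ, ∃ X₀ : ℕ, ∀ X : ℕ, X₀ ≤ X →
        (((Icc 1 X).filter (fun n => n ∈ P (st n))).card : ℝ) ≤ X / Real.log X ^ U := by
  choose X₀ hX₀ using hP
  obtain ⟨st, hm, ht, hs⟩ := exists_slow (fun j => max (X₀ j) (Y j))
  refine ⟨st, ht, fun n j h1 h2 => (le_max_right _ _).trans (hs n j h1 h2), fun U => ?_⟩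
  -- `√X` is small
  have hlim : ∀ᶠ N : ℕ in atTop, (Real.log N) ^ (U : ℝ) ≤ 1 / 2 * (N : ℝ) ^ (1 / 2 : ℝ) := by
    have h1 := (isLittleO_log_rpow_rpow_atTop (U : ℝ) (show (0 : ℝ) < 1 / 2 by norm_num)).def
      (show (0 : ℝ) < 1 / 2 by norm_num)
    have h2 := tendsto_natCast_atTop_atTop (R := ℝ) |>.eventually h1
    filter_upwards [h2, eventually_ge_atTop 1] with N hN hN1
    have hN1' : (1 : ℝ) ≤ N := by exact_mod_cast hN1
    have hl := Real.log_nonneg hN1'
    rwa [Real.norm_of_nonneg (Real.rpow_nonneg hl _), Real.norm_of_nonneg (Real.rpow_nonneg (by linarith) _)] at hN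
  have hsq : Tendsto (fun N : ℕ => N.sqrt) atTop atTop := by
    rw [tendsto_atTop_atTop]
    exact fun b => ⟨b ^ 2, fun n hn => Nat.le_sqrt'.2 hn⟩
  obtain ⟨X₁, hX₁⟩ := eventually_atTop.1 ((hlim.and ((ht.comp hsq).eventually (eventually_ge_atTop (U + 2)))).and
    (eventually_ge_atTop 3000))
  refine ⟨X₁, fun X hX => ?_⟩
  obtain ⟨⟨h1, h2⟩, h3⟩ := hX₁ X hX
  simp only [Function.comp] at h2
  have hXR : (3000 : ℝ) ≤ X := by exact_mod_cast h3
  have hL4 : 4 ≤ Real.log X := by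
    rw [Real.le_log_iff_exp_le (by linarith)]
    have h1 : Real.exp 4 = Real.exp 1 ^ 4 := by rw [← Real.exp_nat_mul]; norm_num
    have h2 := Real.exp_one_lt_d9
    rw [h1]
    calc Real.exp 1 ^ 4 ≤ 2.7182818286 ^ 4 := pow_le_pow_left₀ (Real.exp_pos _).le h2.le 4
      _ ≤ 3000 := by norm_num
      _ ≤ X := hXR
  set L := Real.log (X : ℝ) with hL
  have hsub : (Icc 1 X).filter (fun n => n ∈ P (st n)) ⊆
      Icc 1 X.sqrt ∪ (Icc (U + 2) (st X)).biUnion (fun j => (Icc 1 X).filter (fun n => n ∈ P j)) := by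
    intro n hn
    rw [mem_filter, mem_Icc] at hn
    rw [mem_union]
    rcases Nat.lt_or_ge X.sqrt n with h4 | h4
    · right
      rw [mem_biUnion]
      refine ⟨st n, mem_Icc.2 ⟨h2.trans (hm h4.le), hm hn.1.2⟩, ?_⟩
      rw [mem_filter, mem_Icc]
      exact hn
    · exact Or.inl (mem_Icc.2 ⟨hn.1.1, h4⟩)
  have hc := (card_le_card hsub).trans ((card_union_le _ _).trans (Nat.add_le_add_left card_biUnion_le _))
  have hone : ∀ j ∈ Icc (U + 2) (st X), (((Icc 1 X).filter (fun n => n ∈ P j)).card : ℝ) ≤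
      X / L ^ (U + 1) * (1 / 4) ^ (j - (U + 1)) := by
    intro j hj
    rw [mem_Icc] at hj
    have h5 : max (X₀ j) (Y j) ≤ X := hs X j (by omega) hj.2
    refine (hX₀ j X ((le_max_left _ _).trans h5)).trans ?_
    have h6 : L ^ j = L ^ (U + 1) * L ^ (j - (U + 1)) := by
      rw [← pow_add]
      congr 1
      omega
    rw [h6, ← div_div, div_eq_mul_one_div (_ / _) (L ^ (j - (U + 1)))]
    apply mul_le_mul_of_nonneg_left _ (by positivity)
    rw [← one_div_pow]
    apply pow_le_pow_left₀ (by positivity)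
    apply one_div_le_one_div_of_le (by norm_num) hL4
  have hA : ∑ j ∈ Icc (U + 2) (st X), (((Icc 1 X).filter (fun n => n ∈ P j)).card : ℝ) ≤ X / L ^ U / 4 := by
    refine (sum_le_sum hone).trans ?_
    rw [← mul_sum]
    have h7 : ∑ j ∈ Icc (U + 2) (st X), (1 / 4 : ℝ) ^ (j - (U + 1)) ≤ 1 := by
      refine (geo (U + 1) (st X)).trans ?_
      have : (0 : ℝ) ≤ (1 / 4) ^ (st X - (U + 1)) := by positivity
      linarith
    calc (X : ℝ) / L ^ (U + 1) * ∑ j ∈ Icc (U + 2) (st X), (1 / 4 : ℝ) ^ (j - (U + 1))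
        ≤ X / L ^ (U + 1) * 1 := mul_le_mul_of_nonneg_left h7 (by positivity)
      _ = X / L ^ U / L := by rw [mul_one, pow_succ, div_div]
      _ ≤ X / L ^ U / 4 := div_le_div_of_nonneg_left (by positivity) (by norm_num) hL4
  have hB : (X.sqrt : ℝ) ≤ X / L ^ U / 2 := by
    rw [Real.rpow_natCast] at h1
    have h8 : (X.sqrt : ℝ) ≤ (X : ℝ) ^ (1 / 2 : ℝ) := by
      rw [← Real.sqrt_eq_rpow]
      exact Real.nat_sqrt_le_real_sqrt
    refine h8.trans ?_
    rw [div_div, le_div_iff₀ (by positivity)]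
    have h9 : (X : ℝ) = (X : ℝ) ^ (1 / 2 : ℝ) * (X : ℝ) ^ (1 / 2 : ℝ) := by
      rw [← Real.rpow_add (by linarith)]
      norm_num
    calc (X : ℝ) ^ (1 / 2 : ℝ) * (L ^ U * 2) ≤ (X : ℝ) ^ (1 / 2 : ℝ) * (1 / 2 * (X : ℝ) ^ (1 / 2 : ℝ) * 2) := by
          gcongr
      _ = (X : ℝ) ^ (1 / 2 : ℝ) * (X : ℝ) ^ (1 / 2 : ℝ) := by ring
      _ = X := h9.symm
  have hC : (((Icc 1 X).filter (fun n => n ∈ P (st n))).card : ℝ) ≤
      X.sqrt + ∑ j ∈ Icc (U + 2) (st X), (((Icc 1 X).filter (fun n => n ∈ P j)).card : ℝ) := by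
    rw [Nat.card_Icc, Nat.add_sub_cancel] at hc
    exact_mod_cast hc
  have hD : 0 ≤ (X : ℝ) / L ^ U := by positivity
  linarith

end Pool.Agent.Zk38.Cub
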