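import Pool.Agent.Results.MP_4d57ea_nt.WindowsNearCubeRoot
import Pool.Agent.Zk38.Cub.B

set_option autoImplicit false

/-!
# The least prime `m³ + k` in terms of `|k|`
-/

namespace Pool.Agent.Zk38.Cub

open Finset Filter Topology

/-- `k` has a prime `m³ + k ≤ |k|^(2/3) (log |k|)^B` -/
def Least (B : ℝ) (k : ℤ) : Prop := ∃ (m : ℤ) (p : ℕ), p.Prime ∧ (p : ℤ) = m ^ 3 + k ∧
  (p : ℝ) ≤ |(k : ℝ)| ^ ((2 : ℝ) / 3) * Real.log |(k : ℝ)| ^ B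

lemma Least.mono {B B' : ℝ} {k : ℤ} (hk : 1 ≤ Real.log |(k : ℝ)|) (h : Least B k) (hB : B ≤ B') : Least B' k := by
  obtain ⟨m, p, h1, h2, h3⟩ := h
  refine ⟨m, p, h1, h2, h3.trans ?_⟩
  apply mul_le_mul_of_nonneg_left (Real.rpow_le_rpow_of_exponent_le hk hB)
  positivity

open Classical in
/-- the exceptions -/
theorem stageL (D : ℕ) : ∃ B X₀ : ℕ, ∀ N : ℕ, X₀ ≤ N →
    ((((Icc (-(N : ℤ)) N).filter (fun k => ¬ Least B k)).card : ℕ) : ℝ) ≤ N / Real.log N ^ D := by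
  obtain ⟨B, X₀, h0⟩ := Pool.Agent.Results.MP_4d57ea_nt.WindowsNearCubeRoot.result.2 (D + 2)
  have hlim : ∀ᶠ N : ℕ in atTop, 3 * (Real.log N) ^ ((D + 1 : ℕ) : ℝ) ≤ 1 / 2 * (N : ℝ) ^ (1 / 2 : ℝ) := by
    have h1 := (isLittleO_log_rpow_rpow_atTop ((D + 1 : ℕ) : ℝ) (show (0 : ℝ) < 1 / 2 by norm_num)).def
      (show (0 : ℝ) < 1 / 6 by norm_num)
    have h2 := tendsto_natCast_atTop_atTop (R := ℝ) |>.eventually h1
    filter_upwards [h2, eventually_ge_atTop 1] with N hN hN1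
    have hN1' : (1 : ℝ) ≤ N := by exact_mod_cast hN1
    have hl := Real.log_nonneg hN1'
    rw [Real.norm_of_nonneg (Real.rpow_nonneg hl _), Real.norm_of_nonneg (Real.rpow_nonneg (by linarith) _)] at hN
    linarith
  obtain ⟨X₁, hX₁⟩ := eventually_atTop.1 hlim
  refine ⟨2 * (B + D + 1), max (max X₀ X₁) 3000, fun N hN => ?_⟩
  have hN0 : X₀ ≤ N := ((le_max_left _ _).trans (le_max_left _ _)).trans hN
  have hN1 : X₁ ≤ N := ((le_max_right _ _).trans (le_max_left _ _)).trans hN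
  have hN2 : 3000 ≤ N := (le_max_right _ _).trans hN
  have hNR : (3000 : ℝ) ≤ N := by exact_mod_cast hN2
  obtain ⟨Bad, hBad, hcard, hgood⟩ := h0 N hN0
  have hL4 : 4 ≤ Real.log N := by
    rw [Real.le_log_iff_exp_le (by linarith)]
    have h1 : Real.exp 4 = Real.exp 1 ^ 4 := by rw [← Real.exp_nat_mul]; norm_num
    have h2 := Real.exp_one_lt_d9
    rw [h1]
    calc Real.exp 1 ^ 4 ≤ 2.7182818286 ^ 4 := pow_le_pow_left₀ (Real.exp_pos _).le h2.le 4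
      _ ≤ 3000 := by norm_num
      _ ≤ N := hNR
  set Λ := Real.log (N : ℝ) with hΛ
  set T : ℝ := N / Λ ^ (D + 1) with hT
  have hΛ0 : 0 < Λ := by linarith
  have hT0 : 0 < T := by positivity
  -- `√N ≤ T`
  have hsqT : 6 * (N : ℝ) ^ (1 / 2 : ℝ) ≤ T := by
    have h1 := hX₁ N hN1
    rw [Real.rpow_natCast] at h1
    rw [hT, le_div_iff₀ (by positivity)]
    have h2 : (N : ℝ) = (N : ℝ) ^ (1 / 2 : ℝ) * (N : ℝ) ^ (1 / 2 : ℝ) := by
      rw [← Real.rpow_add (by linarith)]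
      norm_num
    have h3 : (0 : ℝ) ≤ (N : ℝ) ^ (1 / 2 : ℝ) := by positivity
    calc 6 * (N : ℝ) ^ (1 / 2 : ℝ) * Λ ^ (D + 1)
        = (N : ℝ) ^ (1 / 2 : ℝ) * (2 * (3 * Λ ^ (D + 1))) := by ring
      _ ≤ (N : ℝ) ^ (1 / 2 : ℝ) * (2 * (1 / 2 * (N : ℝ) ^ (1 / 2 : ℝ))) := by gcongr
      _ = (N : ℝ) ^ (1 / 2 : ℝ) * (N : ℝ) ^ (1 / 2 : ℝ) := by ring
      _ = N := h2.symm
  have hs1 : (1 : ℝ) ≤ (N : ℝ) ^ (1 / 2 : ℝ) := Real.one_le_rpow (by linarith) (by norm_num)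
  have key : ∀ k : ℤ, k ∈ Icc (-(N : ℤ)) N → T < |(k : ℝ)| → k ∉ Bad → Least ((2 * (B + D + 1) : ℕ) : ℝ) k := by
    intro k hk hkT hkB
    have hkN' : |(k : ℝ)| ≤ N := by
      rw [mem_Icc] at hk
      rw [abs_le]
      exact ⟨by exact_mod_cast hk.1, by exact_mod_cast hk.2⟩
    have hk0 : (0 : ℝ) < |(k : ℝ)| := by linarith
    have hkN : (N : ℝ) ^ (1 / 2 : ℝ) < |(k : ℝ)| := by linarith
    have hΛ2 : 1 / 2 * Λ ≤ Real.log |(k : ℝ)| := by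
      have := Real.log_le_log (by positivity) hkN.le
      rwa [Real.log_rpow (by linarith)] at this
    obtain ⟨m, p, h1, h2, h3⟩ := hgood k hk hkB
    refine ⟨m, p, h1, h2, h3.trans ?_⟩
    set L := Real.log |(k : ℝ)| with hL
    have hL2 : 2 ≤ L := by linarith
    have hΛL : Λ ≤ L ^ 2 := by nlinarith
    have hNk : (N : ℝ) ≤ |(k : ℝ)| * Λ ^ (D + 1) := by
      rw [hT, div_lt_iff₀ (by positivity)] at hkT
      exact hkT.le
    have e1 : (N : ℝ) ^ ((2 : ℝ) / 3) ≤ |(k : ℝ)| ^ ((2 : ℝ) / 3) * Λ ^ (D + 1) := by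
      calc (N : ℝ) ^ ((2 : ℝ) / 3) ≤ (|(k : ℝ)| * Λ ^ (D + 1)) ^ ((2 : ℝ) / 3) :=
            Real.rpow_le_rpow (by linarith) hNk (by norm_num)
        _ = |(k : ℝ)| ^ ((2 : ℝ) / 3) * (Λ ^ (D + 1)) ^ ((2 : ℝ) / 3) := by
            rw [Real.mul_rpow hk0.le (by positivity)]
        _ ≤ _ := by
            apply mul_le_mul_of_nonneg_left _ (by positivity)
            have h4 : 1 ≤ Λ ^ (D + 1) := one_le_pow₀ (by linarith)
            calc (Λ ^ (D + 1)) ^ ((2 : ℝ) / 3) ≤ (Λ ^ (D + 1)) ^ (1 : ℝ) :=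
                  Real.rpow_le_rpow_of_exponent_le h4 (by norm_num)
              _ = _ := Real.rpow_one _
    have e2 : Λ ^ (D + 1) * Λ ^ B ≤ L ^ (2 * (B + D + 1)) := by
      calc Λ ^ (D + 1) * Λ ^ B = Λ ^ (B + D + 1) := by rw [← pow_add]; congr 1; omega
        _ ≤ (L ^ 2) ^ (B + D + 1) := pow_le_pow_left₀ (by linarith) hΛL _
        _ = _ := by rw [← pow_mul]
    rw [Real.rpow_natCast]
    calc (N : ℝ) ^ ((2 : ℝ) / 3) * Λ ^ B ≤ |(k : ℝ)| ^ ((2 : ℝ) / 3) * Λ ^ (D + 1) * Λ ^ B := by gcongr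
      _ = |(k : ℝ)| ^ ((2 : ℝ) / 3) * (Λ ^ (D + 1) * Λ ^ B) := by ring
      _ ≤ _ := by gcongr
  have hsub : (Icc (-(N : ℤ)) N).filter (fun k => ¬ Least ((2 * (B + D + 1) : ℕ) : ℝ) k) ⊆
      Icc (-(⌊T⌋₊ : ℤ)) ⌊T⌋₊ ∪ Bad := by
    intro k hk
    rw [mem_filter] at hk
    rw [mem_union]
    by_contra hcon
    rw [not_or] at hcon
    apply hk.2
    refine key k hk.1 ?_ hcon.2
    by_contra hle
    rw [not_lt] at hle
    apply hcon.1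
    have h1 : (k.natAbs : ℝ) ≤ T := by
      rw [Nat.cast_natAbs]
      push_cast
      exact hle
    have h2 : k.natAbs ≤ ⌊T⌋₊ := Nat.le_floor h1
    rw [mem_Icc]
    omega
  have hc1 := (card_le_card hsub).trans (card_union_le _ _)
  have hc2 : ((Icc (-(⌊T⌋₊ : ℤ)) ⌊T⌋₊).card : ℝ) ≤ 3 * T := by
    rw [Int.card_Icc]
    have h1 : ((⌊T⌋₊ : ℤ) + 1 - -(⌊T⌋₊ : ℤ)).toNat = 2 * ⌊T⌋₊ + 1 := by omega
    rw [h1]
    push_cast
    have h2 : (⌊T⌋₊ : ℝ) ≤ T := Nat.floor_le hT0.le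
    linarith
  have hc3 : (Bad.card : ℝ) ≤ N / Λ ^ D / 16 := by
    refine hcard.trans ?_
    rw [div_div]
    apply div_le_div_of_nonneg_left (by linarith) (by positivity)
    rw [pow_add]
    apply mul_le_mul_of_nonneg_left _ (by positivity)
    nlinarith
  have hc4 : 3 * T ≤ N / Λ ^ D * (3 / 4) := by
    rw [hT, pow_succ, ← div_div]
    have h5 : (0 : ℝ) ≤ N / Λ ^ D := by positivity
    have h6 : N / Λ ^ D / Λ ≤ N / Λ ^ D / 4 := div_le_div_of_nonneg_left h5 (by norm_num) hL4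
    linarith
  have h7 : (0 : ℝ) ≤ N / Λ ^ D := by positivity
  calc ((((Icc (-(N : ℤ)) N).filter (fun k => ¬ Least ((2 * (B + D + 1) : ℕ) : ℝ) k)).card : ℕ) : ℝ)
      ≤ ((Icc (-(⌊T⌋₊ : ℤ)) ⌊T⌋₊).card : ℝ) + Bad.card := by exact_mod_cast hc1
    _ ≤ _ := by linarith

/-- near powers of almost every number -/
theorem least_near_powers {v : ℕ → ℝ} (hv : ∀ j, 1 ≤ v j) {t : ℝ} (ht : Summable fun j => (v j) ^ (-t)) :
    ∃ Z : Set ℝ, MeasureTheory.volume Z = 0 ∧ ∀ α : ℝ, 1 < α → α ∉ Z →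
      ∀ A : ℕ, ∃ B j₀ : ℕ, ∀ j : ℕ, j₀ ≤ j → ∀ k : ℤ,
        |(|k| : ℝ) - α ^ (v j)| ≤ (v j) ^ A → Least B k := by
  classical
  choose Bf Xf hf using stageL
  obtain ⟨Z, hZ, h⟩ := slow_par (I := Unit) (fun _ D k => ¬ Least (Bf D) k)
    (by
      rintro _ D
      refine ⟨Xf D, fun X hX => le_trans ?_ (hf D X hX)⟩
      rw [← Set.ncard_coe_finset]
      have hsub : {d : ℤ | d.natAbs ≤ X ∧ ¬ Least (Bf D) d} ⊆
          (((Icc (-(X : ℤ)) X).filter (fun k => ¬ Least (Bf D) k) : Finset ℤ) : Set ℤ) := by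
        rintro d ⟨h2, h3⟩
        rw [Finset.mem_coe, Finset.mem_filter, Finset.mem_Icc]
        exact ⟨by omega, h3⟩
      exact_mod_cast Set.ncard_le_ncard hsub (Finset.finite_toSet _)) hv ht
  refine ⟨Z, hZ, fun α hα hαZ A => ?_⟩
  obtain ⟨D, j₀, hD⟩ := h α hα hαZ () A
  exact ⟨Bf D, j₀, fun j hj k hk => not_not.1 (hD j hj k hk)⟩

end Pool.Agent.Zk38.Cub
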