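import Mathlib

set_option autoImplicit false

/-!
# Natural and real powers of the logarithm
-/

namespace Pool.Agent.Zk38.Cub

open Finset

open Classical in
lemma real_of_nat {E : Set ℕ} (h : ∀ U : ℕ, ∃ X₀ : ℕ, ∀ X : ℕ, X₀ ≤ X →
      (((Icc 1 X).filter (fun n => n ∈ E)).card : ℝ) ≤ X / Real.log X ^ U) (B : ℝ) :
    ∃ X₀ : ℕ, ∀ X : ℕ, X₀ ≤ X → (((Icc 1 X).filter (fun n => n ∈ E)).card : ℝ) ≤ X / Real.log X ^ B := by
  obtain ⟨X₀, hX₀⟩ := h ⌈B⌉₊
  refine ⟨max X₀ 3, fun X hX => (hX₀ X ((le_max_left _ _).trans hX)).trans ?_⟩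
  have hX3 : (3 : ℝ) ≤ X := by exact_mod_cast (le_max_right _ _).trans hX
  have hL : 1 ≤ Real.log X := by
    rw [Real.le_log_iff_exp_le (by linarith)]
    have := Real.exp_one_lt_d9
    linarith
  apply div_le_div_of_nonneg_left (by linarith) (Real.rpow_pos_of_pos (by linarith) _)
  rw [← Real.rpow_natCast]
  exact Real.rpow_le_rpow_of_exponent_le hL (Nat.le_ceil B)

end Pool.Agent.Zk38.Cub
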