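import Pool.Agent.Results.MP_4d57ea_nt.WindowsNearCubeRoot
import Pool.Agent.R482.ST.SlowC

set_option autoImplicit false

/-!
# Primes `F(m) + k` in windows: a property of a single `k`, and its exceptions
-/

namespace Pool.Agent.Zk38.Cub

open Finset Filter Topology
open Polynomial (X)
open scoped Polynomial
open Pool.Agent.Results.MP_4d57ea_nt.WindowsNearCubeRoot (S P M)

/-- `F + k` has no fixed prime divisor -/
def Adm (F : ℤ[X]) (k : ℤ) : Prop := ∀ p : ℕ, p.Prime → ∃ m : ℤ, ¬ (p : ℤ) ∣ F.eval m + k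

/-- the asymptotic formula for the primes `F(m) + k` in all windows, with the parameters `U, C, ε, B` -/
def HL (F : ℤ[X]) (U C : ℕ) (ε : ℝ) (B : ℝ) (k : ℤ) : Prop :=
  ∀ z : ℕ, Real.log |(k : ℝ)| ^ B ≤ z → (z : ℝ) ^ 3 ≤ |(k : ℝ)| → 0 < S F k z ∧
    ∀ a b : ℤ, a < b → (∀ m ∈ Ioc a b, 2 ≤ F.eval m + k ∧ ((F.eval m + k : ℤ) : ℝ) ≤
        ((b : ℝ) - a) * |(k : ℝ)| ^ (1 - 1 / (F.natDegree : ℝ)) * Real.log |(k : ℝ)| ^ C) →
      (Real.log |(k : ℝ)| ^ B ≤ (b : ℝ) - a →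
        |(P F k a b : ℝ) - S F k z * M F k a b| ≤ ε * (S F k z * M F k a b)) ∧
      (Real.exp (B * Real.log (Real.log |(k : ℝ)|) ^ 2) ≤ (b : ℝ) - a →
        |(P F k a b : ℝ) - S F k z * M F k a b| ≤ (S F k z * M F k a b) / Real.log |(k : ℝ)| ^ U)

lemma M_nonneg {F : ℤ[X]} {k a b : ℤ} (h : ∀ m ∈ Ioc a b, 2 ≤ F.eval m + k) : 0 ≤ M F k a b := by
  unfold M
  apply Finset.sum_nonneg
  intro m hm
  have h1 : (2 : ℝ) ≤ ((F.eval m + k : ℤ) : ℝ) := by exact_mod_cast h m hm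
  exact div_nonneg zero_le_one (Real.log_nonneg (by linarith))

/-- monotonicity in all parameters -/
lemma HL.mono {F : ℤ[X]} {U C U' C' : ℕ} {ε ε' B B' : ℝ} {k : ℤ} (hk : 1 ≤ Real.log |(k : ℝ)|)
    (h : HL F U C ε B k) (hU : U' ≤ U) (hC : C' ≤ C) (hε : ε ≤ ε') (hB : B ≤ B') : HL F U' C' ε' B' k := by
  intro z hz hz3
  obtain ⟨h1, h2⟩ := h z ((Real.rpow_le_rpow_of_exponent_le hk hB).trans hz) hz3
  refine ⟨h1, fun a b hab hm => ?_⟩
  have hM : 0 ≤ M F k a b := M_nonneg fun m hm' => (hm m hm').1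
  have hab' : (0 : ℝ) < (b : ℝ) - a := by
    have : (a : ℝ) < b := by exact_mod_cast hab
    linarith
  obtain ⟨h3, h4⟩ := h2 a b hab (fun m hm' => ⟨(hm m hm').1, (hm m hm').2.trans (by
    apply mul_le_mul_of_nonneg_left (pow_le_pow_right₀ hk hC)
    positivity)⟩)
  have hSM : 0 ≤ S F k z * M F k a b := mul_nonneg h1.le hM
  refine ⟨fun h5 => ?_, fun h5 => ?_⟩
  · exact (h3 ((Real.rpow_le_rpow_of_exponent_le hk hB).trans h5)).trans (mul_le_mul_of_nonneg_right hε hSM)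
  · refine (h4 (le_trans (Real.exp_le_exp.2 ?_) h5)).trans ?_
    · exact mul_le_mul_of_nonneg_right hB (sq_nonneg _)
    · apply div_le_div_of_nonneg_left hSM (by positivity)
      exact pow_le_pow_right₀ hk hU

open Classical in
/-- the exceptions -/
theorem stage (F : ℤ[X]) (hF : 2 ≤ F.natDegree) (U C D : ℕ) (ε : ℝ) (hε : 0 < ε) : ∃ B X₀ : ℕ, ∀ N : ℕ, X₀ ≤ N →
    ((((Icc (-(N : ℤ)) N).filter (fun k => Adm F k ∧ ¬ HL F U C ε B k)).card : ℕ) : ℝ) ≤ N / Real.log N ^ D := by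
  obtain ⟨B, X₀, h0⟩ := Pool.Agent.Results.MP_4d57ea_nt.WindowsNearCubeRoot.result.1 F hF (max U (D + 2)) C ε hε
  -- `2 √N + 1` is small
  have hlim : ∀ᶠ N : ℕ in atTop, 3 * (Real.log N) ^ (D : ℝ) ≤ 1 / 2 * (N : ℝ) ^ (1 / 2 : ℝ) := by
    have h1 := (isLittleO_log_rpow_rpow_atTop (D : ℝ) (show (0 : ℝ) < 1 / 2 by norm_num)).def
      (show (0 : ℝ) < 1 / 6 by norm_num)
    have h2 := tendsto_natCast_atTop_atTop (R := ℝ) |>.eventually h1
    filter_upwards [h2, eventually_ge_atTop 1] with N hN hN1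
    have hN1' : (1 : ℝ) ≤ N := by exact_mod_cast hN1
    have hl := Real.log_nonneg hN1'
    rw [Real.norm_of_nonneg (Real.rpow_nonneg hl _), Real.norm_of_nonneg (Real.rpow_nonneg (by linarith) _)] at hN
    linarith
  obtain ⟨X₁, hX₁⟩ := eventually_atTop.1 hlim
  refine ⟨4 * B, max (max X₀ X₁) 3000, fun N hN => ?_⟩
  have hN0 : X₀ ≤ N := ((le_max_left _ _).trans (le_max_left _ _)).trans hN
  have hN1 : X₁ ≤ N := ((le_max_right _ _).trans (le_max_left _ _)).trans hN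
  have hN2 : 3000 ≤ N := (le_max_right _ _).trans hN
  have hNR : (3000 : ℝ) ≤ N := by exact_mod_cast hN2
  obtain ⟨Bad, hBad, hcard, hgood⟩ := h0 N hN0
  have hL4 : 4 ≤ Real.log N := by
    rw [Real.le_log_iff_exp_le (by linarith)]
    have h1 : Real.exp 4 = Real.exp 1 ^ 4 := by rw [← Real.exp_nat_mul]; norm_num
    have h2 := Real.exp_one_lt_d9
    rw [h1]
    calc Real.exp 1 ^ 4 ≤ 2.7182818286 ^ 4 := pow_le_pow_left₀ (Real.exp_pos _).le h2.le 4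
      _ ≤ 3000 := by norm_num
      _ ≤ N := hNR
  -- a large good `k`
  have key : ∀ k : ℤ, k ∈ Icc (-(N : ℤ)) N → (N : ℝ) ^ (1 / 2 : ℝ) < |(k : ℝ)| → k ∉ Bad → Adm F k →
      HL F U C ε ((4 * B : ℕ) : ℝ) k := by
    intro k hk hkN hkB hadm z hz hz3
    have hkN' : |(k : ℝ)| ≤ N := by
      rw [mem_Icc] at hk
      rw [abs_le]
      exact ⟨by exact_mod_cast hk.1, by exact_mod_cast hk.2⟩
    have hsq : (1 : ℝ) ≤ (N : ℝ) ^ (1 / 2 : ℝ) := Real.one_le_rpow (by linarith) (by norm_num)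
    have hk0 : (0 : ℝ) < |(k : ℝ)| := by linarith
    have hΛ1 : Real.log |(k : ℝ)| ≤ Real.log N := Real.log_le_log hk0 hkN'
    have hΛ2 : 1 / 2 * Real.log N ≤ Real.log |(k : ℝ)| := by
      have := Real.log_le_log (by positivity) hkN.le
      rwa [Real.log_rpow (by linarith)] at this
    set L := Real.log |(k : ℝ)| with hL
    set Λ := Real.log (N : ℝ) with hΛ
    have hL2 : 2 ≤ L := by linarith
    have hΛL : Λ ≤ L ^ 2 := by nlinarith
    have hpow : Λ ^ B ≤ L ^ (((4 * B : ℕ) : ℝ)) := by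
      rw [Real.rpow_natCast]
      calc Λ ^ B ≤ (L ^ 2) ^ B := pow_le_pow_left₀ (by linarith) hΛL B
        _ = L ^ (2 * B) := by rw [← pow_mul]
        _ ≤ L ^ (4 * B) := pow_le_pow_right₀ (by linarith) (by omega)
    have hz3' : z ^ 3 ≤ N := by
      have : (z : ℝ) ^ 3 ≤ N := hz3.trans hkN'
      exact_mod_cast this
    obtain ⟨h1, h2⟩ := hgood k hk hkB hadm z (hpow.trans hz) hz3'
    refine ⟨h1, fun a b hab hm => ?_⟩
    have hM : 0 ≤ M F k a b := M_nonneg fun m hm' => (hm m hm').1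
    have hab' : (0 : ℝ) < (b : ℝ) - a := by
      have : (a : ℝ) < b := by exact_mod_cast hab
      linarith
    have hSM : 0 ≤ S F k z * M F k a b := mul_nonneg h1.le hM
    have hdeg : (0 : ℝ) ≤ 1 - 1 / (F.natDegree : ℝ) := by
      have h3 : (2 : ℝ) ≤ F.natDegree := by exact_mod_cast hF
      have h4 : 1 / (F.natDegree : ℝ) ≤ 1 := by
        rw [div_le_one (by linarith)]
        linarith
      linarith
    obtain ⟨h3, h4⟩ := h2 a b hab (fun m hm' => ⟨(hm m hm').1, (hm m hm').2.trans (by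
      apply mul_le_mul
      · apply mul_le_mul_of_nonneg_left _ hab'.le
        exact Real.rpow_le_rpow hk0.le hkN' hdeg
      · exact pow_le_pow_left₀ (by linarith) hΛ1 C
      · exact pow_nonneg (by linarith) _
      · positivity)⟩)
    refine ⟨fun h5 => h3 (hpow.trans h5), fun h5 => (h4 (le_trans (Real.exp_le_exp.2 ?_) h5)).trans ?_⟩
    · have hl0 : 0 ≤ Real.log Λ := Real.log_nonneg (by linarith)
      have hl1 : Real.log Λ ≤ 2 * Real.log L := by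
        have := Real.log_le_log (by linarith) hΛL
        rwa [Real.log_pow] at this
      have hl2 : Real.log Λ ^ 2 ≤ 4 * Real.log L ^ 2 := by nlinarith
      push_cast
      have hB0 : (0 : ℝ) ≤ B := by positivity
      nlinarith
    · apply div_le_div_of_nonneg_left hSM (by positivity)
      calc L ^ U ≤ Λ ^ U := pow_le_pow_left₀ (by linarith) hΛ1 U
        _ ≤ Λ ^ max U (D + 2) := pow_le_pow_right₀ (by linarith) (le_max_left _ _)
  have hsub : (Icc (-(N : ℤ)) N).filter (fun k => Adm F k ∧ ¬ HL F U C ε ((4 * B : ℕ) : ℝ) k) ⊆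
      Icc (-(⌊(N : ℝ) ^ (1 / 2 : ℝ)⌋₊ : ℤ)) ⌊(N : ℝ) ^ (1 / 2 : ℝ)⌋₊ ∪ Bad := by
    intro k hk
    rw [mem_filter] at hk
    rw [mem_union]
    by_contra hcon
    rw [not_or] at hcon
    apply hk.2.2
    refine key k hk.1 ?_ hcon.2 hk.2.1
    by_contra hle
    rw [not_lt] at hle
    apply hcon.1
    have h1 : (k.natAbs : ℝ) ≤ (N : ℝ) ^ (1 / 2 : ℝ) := by
      rw [Nat.cast_natAbs]
      push_cast
      exact hle
    have h2 : k.natAbs ≤ ⌊(N : ℝ) ^ (1 / 2 : ℝ)⌋₊ := Nat.le_floor h1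
    rw [mem_Icc]
    omega
  have hc1 := (card_le_card hsub).trans (card_union_le _ _)
  have hc2 : ((Icc (-(⌊(N : ℝ) ^ (1 / 2 : ℝ)⌋₊ : ℤ)) ⌊(N : ℝ) ^ (1 / 2 : ℝ)⌋₊).card : ℝ) ≤ 3 * (N : ℝ) ^ (1 / 2 : ℝ) := by
    rw [Int.card_Icc]
    have h1 : ((⌊(N : ℝ) ^ (1 / 2 : ℝ)⌋₊ : ℤ) + 1 - -(⌊(N : ℝ) ^ (1 / 2 : ℝ)⌋₊ : ℤ)).toNat =
        2 * ⌊(N : ℝ) ^ (1 / 2 : ℝ)⌋₊ + 1 := by omega
    rw [h1]
    push_cast
    have h2 : (⌊(N : ℝ) ^ (1 / 2 : ℝ)⌋₊ : ℝ) ≤ (N : ℝ) ^ (1 / 2 : ℝ) := Nat.floor_le (by positivity)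
    have h3 : (1 : ℝ) ≤ (N : ℝ) ^ (1 / 2 : ℝ) := Real.one_le_rpow (by linarith) (by norm_num)
    linarith
  have hc3 : (Bad.card : ℝ) ≤ N / Real.log N ^ D / 2 := by
    refine hcard.trans ?_
    rw [div_div]
    apply div_le_div_of_nonneg_left (by linarith) (by positivity)
    calc Real.log N ^ D * 2 ≤ Real.log N ^ D * Real.log N ^ 2 := by
          apply mul_le_mul_of_nonneg_left _ (by positivity)
          nlinarith
      _ = Real.log N ^ (D + 2) := by ring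
      _ ≤ _ := pow_le_pow_right₀ (by linarith) (le_max_right _ _)
  have hc4 : 3 * (N : ℝ) ^ (1 / 2 : ℝ) ≤ N / Real.log N ^ D / 2 := by
    have h1 := hX₁ N hN1
    rw [Real.rpow_natCast] at h1
    rw [div_div, le_div_iff₀ (by positivity)]
    have h2 : (N : ℝ) = (N : ℝ) ^ (1 / 2 : ℝ) * (N : ℝ) ^ (1 / 2 : ℝ) := by
      rw [← Real.rpow_add (by linarith)]
      norm_num
    have h3 : (0 : ℝ) ≤ (N : ℝ) ^ (1 / 2 : ℝ) := by positivity
    calc 3 * (N : ℝ) ^ (1 / 2 : ℝ) * (Real.log N ^ D * 2)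
        = (N : ℝ) ^ (1 / 2 : ℝ) * (2 * (3 * Real.log N ^ D)) := by ring
      _ ≤ (N : ℝ) ^ (1 / 2 : ℝ) * (2 * (1 / 2 * (N : ℝ) ^ (1 / 2 : ℝ))) := by gcongr
      _ = (N : ℝ) ^ (1 / 2 : ℝ) * (N : ℝ) ^ (1 / 2 : ℝ) := by ring
      _ = N := h2.symm
  calc ((((Icc (-(N : ℤ)) N).filter (fun k => Adm F k ∧ ¬ HL F U C ε ((4 * B : ℕ) : ℝ) k)).card : ℕ) : ℝ)
      ≤ ((Icc (-(⌊(N : ℝ) ^ (1 / 2 : ℝ)⌋₊ : ℤ)) ⌊(N : ℝ) ^ (1 / 2 : ℝ)⌋₊).card : ℝ) + Bad.card := by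
        exact_mod_cast hc1
    _ ≤ _ := by linarith

end Pool.Agent.Zk38.Cub
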