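import Pool.Agent.Zk38.Cub.A
import Pool.Agent.Zk38.Cub.B

set_option autoImplicit false

/-!
# Primes `F(m) + k` for all `k` near powers of almost every number, and for all `k` outside one thin set
-/

namespace Pool.Agent.Zk38.Cub

open Finset Filter Topology MeasureTheory
open Polynomial (X)
open scoped Polynomial

/-- polynomials of degree at least `2` -/
abbrev Pol : Type := {F : ℤ[X] // 2 ≤ F.natDegree}

instance : Countable ℤ[X] := by
  rw [← Cardinal.mk_le_aleph0_iff]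
  refine Polynomial.cardinalMk_le_max.trans ?_
  simp

instance : Nonempty Pol := ⟨⟨X ^ 2, by simp⟩⟩

open Classical in
lemma stage' (F : Pol) (U C D n : ℕ) : ∃ B X₀ : ℕ, ∀ N : ℕ, X₀ ≤ N →
    ((((Icc (-(N : ℤ)) N).filter (fun k => Adm F.1 k ∧ ¬ HL F.1 U C (1 / ((n : ℝ) + 1)) B k)).card : ℕ) : ℝ) ≤
      N / Real.log N ^ D :=
  stage F.1 F.2 U C D _ (by positivity)

/-- near powers of almost every number -/
theorem near_powers {v : ℕ → ℝ} (hv : ∀ j, 1 ≤ v j) {t : ℝ} (ht : Summable fun j => (v j) ^ (-t)) :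
    ∃ Z : Set ℝ, volume Z = 0 ∧ ∀ α : ℝ, 1 < α → α ∉ Z → ∀ F : ℤ[X], 2 ≤ F.natDegree →
      ∀ (A U C : ℕ) (ε : ℝ), 0 < ε → ∃ B j₀ : ℕ, ∀ j : ℕ, j₀ ≤ j → ∀ k : ℤ,
        |(|k| : ℝ) - α ^ (v j)| ≤ (v j) ^ A → Adm F k → HL F U C ε B k := by
  classical
  choose Bf Xf hf using stage'
  obtain ⟨Z, hZ, h⟩ := slow_par (I := Pol × ℕ × ℕ × ℕ)
    (fun i D k => Adm i.1.1 k ∧ ¬ HL i.1.1 i.2.1 i.2.2.1 (1 / ((i.2.2.2 : ℝ) + 1)) (Bf i.1 i.2.1 i.2.2.1 D i.2.2.2) k)
    (by
      rintro ⟨F, U, C, n⟩ D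
      refine ⟨Xf F U C D n, fun X hX => le_trans ?_ (hf F U C D n X hX)⟩
      rw [← Set.ncard_coe_finset]
      have hsub : {d : ℤ | d.natAbs ≤ X ∧ Adm F.1 d ∧ ¬ HL F.1 U C (1 / ((n : ℝ) + 1)) (Bf F U C D n) d} ⊆
          (((Icc (-(X : ℤ)) X).filter (fun k => Adm F.1 k ∧ ¬ HL F.1 U C (1 / ((n : ℝ) + 1)) (Bf F U C D n) k) :
            Finset ℤ) : Set ℤ) := by
        rintro d ⟨h2, h3⟩
        rw [Finset.mem_coe, Finset.mem_filter, Finset.mem_Icc]
        exact ⟨by omega, h3⟩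
      exact_mod_cast Set.ncard_le_ncard hsub (Finset.finite_toSet _)) hv ht
  refine ⟨Z, hZ, fun α hα hαZ F hF A U C ε hε => ?_⟩
  obtain ⟨n, hn⟩ := exists_nat_one_div_lt hε
  obtain ⟨D, j₀, hD⟩ := h α hα hαZ (⟨F, hF⟩, U, C, n) A
  -- the numbers in the windows are large
  have hv0 : ∀ n, 0 < v n := fun n => lt_of_lt_of_le one_pos (hv n)
  have hvinf : Tendsto v atTop atTop := by
    have ht' : Summable fun n => (v n) ^ (-(|t| + 1)) := by
      refine Summable.of_nonneg_of_le (fun n => Real.rpow_nonneg (hv0 n).le _) (fun n => ?_) ht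
      exact Real.rpow_le_rpow_of_exponent_le (hv n) (by linarith [le_abs_self t])
    have h0 := ht'.tendsto_atTop_zero
    have hp : 0 < |t| + 1 := by positivity
    rw [tendsto_atTop_atTop]
    intro b
    have hb : 0 < (max b 1) ^ (-(|t| + 1)) := Real.rpow_pos_of_pos (lt_of_lt_of_le one_pos (le_max_right _ _)) _
    obtain ⟨n0, hn0⟩ := eventually_atTop.1 (h0.eventually (gt_mem_nhds hb))
    refine ⟨n0, fun n hn => ?_⟩
    have h1 := hn0 n hn
    by_contra hcon
    push Not at hcon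
    have h2 : v n ≤ max b 1 := hcon.le.trans (le_max_left _ _)
    exact absurd h1 (not_lt.2 (Real.rpow_le_rpow_of_nonpos (hv0 n) h2 (by linarith)))
  have hlarge : ∀ᶠ j in atTop, 3 ≤ α ^ (v j) - (v j) ^ A := by
    have h1 := (isLittleO_rpow_exp_pos_mul_atTop (A : ℝ) (Real.log_pos hα)).def (show (0 : ℝ) < 1 / 2 by norm_num)
    have h2 : Tendsto (fun y : ℝ => Real.exp (Real.log α * y)) atTop atTop :=
      Real.tendsto_exp_atTop.comp (tendsto_id.const_mul_atTop (Real.log_pos hα))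
    filter_upwards [hvinf.eventually h1, (h2.comp hvinf).eventually (eventually_ge_atTop 6)] with j hj hj2
    rw [Real.norm_of_nonneg (Real.rpow_nonneg (hv0 j).le _), Real.norm_of_nonneg (Real.exp_pos _).le,
      Real.rpow_natCast] at hj
    simp only [Function.comp] at hj2
    rw [Real.rpow_def_of_pos (by linarith)]
    linarith
  obtain ⟨j₁, hj₁⟩ := eventually_atTop.1 hlarge
  refine ⟨Bf ⟨F, hF⟩ U C D n, max j₀ j₁, fun j hj k hk hadm => ?_⟩
  have h1 := hD j ((le_max_left _ _).trans hj) k hk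
  simp only [not_and, not_not] at h1
  have h2 := h1 hadm
  have h3 : 3 ≤ |(k : ℝ)| := by
    have h4 := hj₁ j ((le_max_right _ _).trans hj)
    have h5 := (abs_le.1 hk).1
    linarith
  have h6 : 1 ≤ Real.log |(k : ℝ)| := by
    rw [Real.le_log_iff_exp_le (by linarith)]
    have := Real.exp_one_lt_d9
    linarith
  exact h2.mono h6 le_rfl le_rfl hn.le le_rfl

open Classical in
/-- one exceptional set -/
theorem one_set (ψ : ℕ → ℝ) (hψ : Tendsto ψ atTop atTop) : ∃ E : Set ℕ,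
    (∀ U : ℕ, ∃ X₀ : ℕ, ∀ X : ℕ, X₀ ≤ X → (((Icc 1 X).filter (fun n => n ∈ E)).card : ℝ) ≤ X / Real.log X ^ U) ∧
    ∀ F : ℤ[X], 2 ≤ F.natDegree → ∀ (U C : ℕ) (ε : ℝ), 0 < ε → ∃ n₀ : ℕ, ∀ k : ℤ, n₀ ≤ k.natAbs → k.natAbs ∉ E →
      Adm F k → HL F U C ε (ψ k.natAbs) k := by
  choose Bf Xf hf using stage'
  obtain ⟨e, he⟩ := exists_surjective_nat Pol
  set Bs : ℕ → ℕ := fun j => ∑ i ∈ range (j + 1), Bf (e i) j j (j + 1) j with hBs
  have hBle : ∀ j i, i ≤ j → Bf (e i) j j (j + 1) j ≤ Bs j := fun j i hi =>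
    Finset.single_le_sum (f := fun i => Bf (e i) j j (j + 1) j) (fun _ _ => Nat.zero_le _)
      (Finset.mem_range.2 (by omega))
  -- the stages
  set P : ℕ → Set ℕ := fun j => {n | ∃ k : ℤ, k.natAbs = n ∧ ∃ i ≤ j, Adm (e i).1 k ∧
    ¬ HL (e i).1 j j (1 / ((j : ℝ) + 1)) (Bs j) k} with hP
  have hcount : ∀ j : ℕ, ∃ X₀ : ℕ, ∀ X : ℕ, X₀ ≤ X →
      (((Icc 1 X).filter (fun n => n ∈ P j)).card : ℝ) ≤ X / Real.log X ^ j := by
    intro j
    -- `j + 4 ≤ log X` and `4 (log X)^(j+1) ≤ X`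
    have hlim : ∀ᶠ N : ℕ in atTop, (j : ℝ) + 4 ≤ Real.log N ∧ 4 * (Real.log N) ^ ((j + 1 : ℕ) : ℝ) ≤ (N : ℝ) := by
      have h1 := (isLittleO_log_rpow_rpow_atTop ((j + 1 : ℕ) : ℝ) (show (0 : ℝ) < 1 by norm_num)).def
        (show (0 : ℝ) < 1 / 4 by norm_num)
      have h2 := tendsto_natCast_atTop_atTop (R := ℝ) |>.eventually h1
      have h3 := (Real.tendsto_log_atTop.comp (tendsto_natCast_atTop_atTop (R := ℝ))).eventually
        (eventually_ge_atTop ((j : ℝ) + 4))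
      filter_upwards [h2, h3, eventually_ge_atTop 1] with N hN hN2 hN1
      have hN1' : (1 : ℝ) ≤ N := by exact_mod_cast hN1
      have hl := Real.log_nonneg hN1'
      rw [Real.norm_of_nonneg (Real.rpow_nonneg hl _), Real.norm_of_nonneg (Real.rpow_nonneg (by linarith) _),
        Real.rpow_one] at hN
      exact ⟨hN2, by linarith⟩
    obtain ⟨X₁, hX₁⟩ := eventually_atTop.1 hlim
    refine ⟨max X₁ (∑ i ∈ range (j + 1), Xf (e i) j j (j + 1) j), fun X hX => ?_⟩
    obtain ⟨h1, h2⟩ := hX₁ X ((le_max_left _ _).trans hX)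
    have hXf : ∀ i ≤ j, Xf (e i) j j (j + 1) j ≤ X := fun i hi =>
      (Finset.single_le_sum (f := fun i => Xf (e i) j j (j + 1) j) (fun _ _ => Nat.zero_le _)
        (Finset.mem_range.2 (by omega))).trans ((le_max_right _ _).trans hX)
    set L := Real.log (X : ℝ) with hL
    have hj0 : (0 : ℝ) ≤ j := by positivity
    set T : ℕ → Finset ℤ := fun i => (Icc (-(X : ℤ)) X).filter (fun k => Adm (e i).1 k ∧
      ¬ HL (e i).1 j j (1 / ((j : ℝ) + 1)) (Bf (e i) j j (j + 1) j) k) with hT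
    have hsub : (Icc 1 X).filter (fun n => n ∈ P j) ⊆
        Icc 1 2 ∪ ((range (j + 1)).biUnion T).image Int.natAbs := by
      intro n hn
      rw [mem_filter, mem_Icc] at hn
      obtain ⟨⟨hn1, hnX⟩, k, hk, i, hi, hadm, hbad⟩ := hn
      rw [mem_union]
      rcases Nat.lt_or_ge n 3 with h3 | h3
      · exact Or.inl (mem_Icc.2 ⟨hn1, by omega⟩)
      right
      rw [mem_image]
      refine ⟨k, mem_biUnion.2 ⟨i, mem_range.2 (by omega), ?_⟩, hk⟩
      simp only [hT]
      rw [mem_filter, mem_Icc]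
      refine ⟨by omega, hadm, fun hg => hbad ?_⟩
      have h4 : (3 : ℝ) ≤ |(k : ℝ)| := by
        have : (3 : ℝ) ≤ (k.natAbs : ℝ) := by rw [hk]; exact_mod_cast h3
        rw [Nat.cast_natAbs] at this
        push_cast at this
        exact this
      have h5 : 1 ≤ Real.log |(k : ℝ)| := by
        rw [Real.le_log_iff_exp_le (by linarith)]
        have := Real.exp_one_lt_d9
        linarith
      exact hg.mono h5 le_rfl le_rfl le_rfl (by exact_mod_cast hBle j i hi)
    have hc := (card_le_card hsub).trans ((card_union_le _ _).trans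
      (Nat.add_le_add_left (card_image_le.trans card_biUnion_le) _))
    have hTc : ∑ i ∈ range (j + 1), ((T i).card : ℝ) ≤ (j + 1) * (X / L ^ (j + 1)) := by
      calc ∑ i ∈ range (j + 1), ((T i).card : ℝ) ≤ ∑ i ∈ range (j + 1), (X / L ^ (j + 1) : ℝ) := by
            apply sum_le_sum
            intro i hi
            exact hf (e i) j j (j + 1) j X (hXf i (by have := mem_range.1 hi; omega))
        _ = (j + 1) * (X / L ^ (j + 1)) := by
            rw [sum_const, card_range, nsmul_eq_mul]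
            push_cast
            ring
    have hc' : (((Icc 1 X).filter (fun n => n ∈ P j)).card : ℝ) ≤ 2 + ∑ i ∈ range (j + 1), ((T i).card : ℝ) := by
      have e1 : (Icc 1 2).card = 2 := rfl
      rw [e1] at hc
      exact_mod_cast hc
    have hL0 : 0 < L := by linarith
    have h7 : (2 : ℝ) ≤ X / L ^ (j + 1) := by
      rw [le_div_iff₀ (by positivity)]
      rw [Real.rpow_natCast] at h2
      have : 0 < L ^ (j + 1) := by positivity
      linarith
    calc (((Icc 1 X).filter (fun n => n ∈ P j)).card : ℝ) ≤ (j + 2) * (X / L ^ (j + 1)) := by nlinarith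
      _ = (j + 2) * (X / L ^ j) / L := by rw [pow_succ, ← div_div]; ring
      _ ≤ X / L ^ j := by
          rw [div_le_iff₀ hL0, mul_comm (X / L ^ j) L]
          apply mul_le_mul_of_nonneg_right _ (by positivity)
          linarith
  -- thresholds
  have hY : ∀ j : ℕ, ∃ Y : ℕ, ∀ n : ℕ, Y ≤ n → (Bs j : ℝ) ≤ ψ n := fun j =>
    eventually_atTop.1 (hψ.eventually (eventually_ge_atTop (Bs j : ℝ)))
  choose Y hY using hY
  obtain ⟨st, ht, hs, hthin⟩ := diag P hcount Y
  refine ⟨{n | n ∈ P (st n)}, hthin, fun F hF U C ε hε => ?_⟩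
  obtain ⟨i, hi⟩ := he ⟨F, hF⟩
  obtain ⟨w, hw⟩ := exists_nat_one_div_lt hε
  obtain ⟨n₀, hn₀⟩ := eventually_atTop.1 (ht.eventually (eventually_ge_atTop (i + U + C + w + 1)))
  refine ⟨max n₀ 3, fun k hk hkE hadm => ?_⟩
  have hst := hn₀ k.natAbs ((le_max_left _ _).trans hk)
  have hk3 : 3 ≤ k.natAbs := (le_max_right _ _).trans hk
  set j := st k.natAbs with hj
  have h4 : (3 : ℝ) ≤ |(k : ℝ)| := by
    have : (3 : ℝ) ≤ (k.natAbs : ℝ) := by exact_mod_cast hk3
    rw [Nat.cast_natAbs] at this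
    push_cast at this
    exact this
  have h5 : 1 ≤ Real.log |(k : ℝ)| := by
    rw [Real.le_log_iff_exp_le (by linarith)]
    have := Real.exp_one_lt_d9
    linarith
  have hgood : HL F j j (1 / ((j : ℝ) + 1)) (Bs j) k := by
    by_contra hcon
    apply hkE
    refine ⟨k, rfl, i, by omega, ?_, ?_⟩
    · rw [hi]; exact hadm
    · rw [hi]; exact hcon
  refine hgood.mono h5 (by omega) (by omega) ?_ (hY j _ (hs _ j (by omega) le_rfl))
  refine le_trans ?_ hw.le
  apply one_div_le_one_div_of_le (by positivity)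
  have : (w : ℝ) ≤ j := by exact_mod_cast (by omega : w ≤ j)
  linarith

end Pool.Agent.Zk38.Cub
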